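import Mathlib
import Pool.Agent.Run7.h638.Transv
import Pool.Agent.Run7.h638.WeakExist

set_option autoImplicit false

namespace Pool.Agent.Results.MP_b95b09_co.CommonIndependentSets

/-- `M` is a transversal matroid: for some family `A` of sets, the independent sets of `M` are the
subsets of the ground set that are partial transversals of `A`. -/
def IsTransversalMatroid {α : Type} (M : Matroid α) : Prop :=
  ∃ (κ : Type) (A : κ → Set α), ∀ X : Set α,
    M.Indep X ↔ (X ⊆ M.E ∧ ∃ f : X → κ, Function.Injective f ∧ ∀ x : X, (x : α) ∈ A (f x))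

/-- Let `M₁` be a transversal matroid and `M₂` any matroid, both of arbitrary rank. Let
`B 0, ..., B (k-1)` be pairwise disjoint sets with `k + d` elements each, all independent in both
matroids. If `3 (k - 1)² < 2 (d + 1)³`, then one can choose one element from each `B i` so that the
chosen set is independent in both matroids. -/
theorem result (α : Type) (M₁ M₂ : Matroid α) (k d : ℕ) (B : Fin k → Set α)
    (hM₁ : IsTransversalMatroid M₁)
    (hcard : ∀ i, (B i).encard = (k + d : ℕ∞))
    (hdisj : Pairwise (fun i j => Disjoint (B i) (B j)))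
    (hB : ∀ i, M₁.Indep (B i) ∧ M₂.Indep (B i))
    (hk : 3 * (k - 1) ^ 2 < 2 * (d + 1) ^ 3) :
    ∃ f : Fin k → α, (∀ i, f i ∈ B i) ∧
      M₁.Indep (Set.range f) ∧ M₂.Indep (Set.range f) := by
  classical
  obtain ⟨κ, A, hA⟩ := hM₁
  have hfin : ∀ i, (B i).Finite := by
    intro i
    rw [← Set.encard_lt_top_iff, hcard i]
    exact_mod_cast ENat.natCast_lt_top (k + d)
  let Bf : Fin k → Finset α := fun i => (hfin i).toFinset
  have hcoe : ∀ i, ((Bf i : Finset α) : Set α) = B i := fun i => (hfin i).coe_toFinset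
  have hmemBf : ∀ i x, x ∈ Bf i ↔ x ∈ B i := fun i x => (hfin i).mem_toFinset
  have hcardf : ∀ i, (Bf i).card = k + d := by
    intro i
    have h2 := hcard i
    rw [← hcoe i, Set.encard_coe_eq_coe_finsetCard] at h2
    exact_mod_cast h2
  have hdisjf : ∀ i j, i ≠ j → Disjoint (Bf i) (Bf j) := by
    intro i j hij
    rw [Finset.disjoint_left]
    intro x hx hx2
    exact Set.disjoint_left.1 (hdisj hij) ((hmemBf i x).1 hx) ((hmemBf j x).1 hx2)
  have hind : ∀ i, M₁.Indep ((Bf i : Finset α) : Set α) := fun i => by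
    rw [hcoe i]; exact (hB i).1
  have hex : ∀ i, ∃ h : {x // x ∈ Bf i} → κ, Function.Injective h ∧
      ∀ x : {x // x ∈ Bf i}, (x : α) ∈ A (h x) := fun i => ((hA _).1 (hind i)).2
  choose h hh hhA using hex
  let T : Finset κ := Finset.univ.biUnion (fun i => (Finset.univ).image (h i))
  let f : ∀ i, {x // x ∈ Bf i} → {j // j ∈ T} := fun i x =>
    ⟨h i x, Finset.mem_biUnion.2 ⟨i, Finset.mem_univ _, Finset.mem_image_of_mem _ (Finset.mem_univ _)⟩⟩
  have hf : ∀ i, Function.Injective (f i) := by
    intro i x y hxy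
    exact hh i (congrArg Subtype.val hxy)
  have hfA : ∀ i (x : {x // x ∈ Bf i}), (x : α) ∈ A (f i x).1 := fun i x => hhA i x
  obtain ⟨π, hπ⟩ := Run7.h638.exists_slot hdisjf f
  have S : Run7.h638.Pre M₂ Bf π (Run7.h638.cap _) (k + d) := by
    refine ⟨fun i => ?_, hdisjf, Run7.h638.slot_le_one hf hπ, hcardf⟩
    rw [hcoe i]
    exact (hB i).2
  obtain ⟨g, hg, hok, hI⟩ := Run7.h638.exists_transversal_weak k d Bf S hk
  refine ⟨g, fun i => (hmemBf i _).1 (hg i), ?_, hI⟩
  exact Run7.h638.indep_of_ok hA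
    (fun i x hx => (hB i).1.subset_ground ((hmemBf i x).1 hx)) hfA hπ hg hok

end Pool.Agent.Results.MP_b95b09_co.CommonIndependentSets
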