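import Mathlib
import Pool.Agent.Run7.h638.Transv

set_option autoImplicit false

namespace Pool.Agent.Results.MP_b95b09_co.TransversalMatroid

/-- `M` is a transversal matroid: for some family `A` of sets, the independent sets of `M` are the
subsets of the ground set that are partial transversals of `A`. -/
def IsTransversalMatroid {α : Type} (M : Matroid α) : Prop :=
  ∃ (κ : Type) (A : κ → Set α), ∀ X : Set α,
    M.Indep X ↔ (X ⊆ M.E ∧ ∃ f : X → κ, Function.Injective f ∧ ∀ x : X, (x : α) ∈ A (f x))

/-- Let `M₁` be a transversal matroid and `M₂` any matroid. Let `B 0, ..., B (k-1)` be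
pairwise disjoint bases of `M₁` with `k + d` elements each, all independent in `M₂` (so in
particular pairwise disjoint common bases of rank `k + d`). If
`k ≤ d (d + 1) / 2 + min (d + 1) 4`, then one can choose one element from each `B i` so that the
chosen set is independent in both matroids. -/
theorem result (α : Type) (M₁ M₂ : Matroid α) (k d : ℕ) (B : Fin k → Set α)
    (hM₁ : IsTransversalMatroid M₁)
    (hcard : ∀ i, (B i).encard = (k + d : ℕ∞))
    (hdisj : Pairwise (fun i j => Disjoint (B i) (B j)))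
    (hB : ∀ i, M₁.IsBase (B i) ∧ M₂.Indep (B i))
    (hk : 2 * k ≤ d * (d + 1) + 2 * min (d + 1) 4) :
    ∃ f : Fin k → α, (∀ i, f i ∈ B i) ∧
      M₁.Indep (Set.range f) ∧ M₂.Indep (Set.range f) := by
  classical
  obtain ⟨κ, A, hA⟩ := hM₁
  rcases Nat.eq_zero_or_pos k with hk0 | hkpos
  · subst hk0
    refine ⟨Fin.elim0, fun i => i.elim0, ?_⟩
    have : Set.range (Fin.elim0 : Fin 0 → α) = ∅ := by
      ext y; simp
    rw [this]
    exact ⟨M₁.empty_indep, M₂.empty_indep⟩
  have hfin : ∀ i, (B i).Finite := by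
    intro i
    rw [← Set.encard_lt_top_iff, hcard i]
    exact_mod_cast ENat.natCast_lt_top (k + d)
  let i0 : Fin k := ⟨0, hkpos⟩
  let Bf : Fin k → Finset α := fun i => (hfin i).toFinset
  have hcoe : ∀ i, ((Bf i : Finset α) : Set α) = B i := fun i => (hfin i).coe_toFinset
  have hmemBf : ∀ i x, x ∈ Bf i ↔ x ∈ B i := fun i x => (hfin i).mem_toFinset
  have hcardf : ∀ i, (Bf i).card = k + d := by
    intro i
    have h2 := hcard i
    rw [← hcoe i, Set.encard_coe_eq_coe_finsetCard] at h2
    exact_mod_cast h2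
  have hdisjf : ∀ i j, i ≠ j → Disjoint (Bf i) (Bf j) := by
    intro i j hij
    rw [Finset.disjoint_left]
    intro x hx hx2
    exact Set.disjoint_left.1 (hdisj hij) ((hmemBf i x).1 hx) ((hmemBf j x).1 hx2)
  have hbase : ∀ i, M₁.IsBase ((Bf i : Finset α) : Set α) := fun i => by
    rw [hcoe i]; exact (hB i).1
  obtain ⟨_, f0, hf0, hf0A⟩ := (hA _).1 (hbase i0).indep
  let f0' : {x // x ∈ Bf i0} → κ := f0
  have hex := fun i => Run7.h638.exists_matching hA (hbase i0) (hbase i).indep f0' hf0 hf0A
  choose f hf hfA using hex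
  obtain ⟨π, hπ⟩ := Run7.h638.exists_slot hdisjf f
  have hf0' : Function.Injective f0' := hf0
  have hT : ((Finset.univ : Finset {x // x ∈ Bf i0}).image f0').card = k + d := by
    rw [Finset.card_image_of_injective _ hf0', Finset.card_univ, Fintype.card_coe, hcardf]
  have S : Run7.h638.Setup M₂ Bf π (Run7.h638.cap _) (k + d) := by
    refine ⟨fun i => ?_, hdisjf, Run7.h638.slot_eq_one hf (fun i => by rw [hcardf, hT]) hπ, ?_⟩
    · rw [hcoe i]
      exact (hB i).2
    · rw [Run7.h638.sum_cap, hT]
  obtain ⟨g, hg, hok, hI⟩ := Run7.h638.exists_transversal k d Bf S hk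
  refine ⟨g, fun i => (hmemBf i _).1 (hg i), ?_, hI⟩
  exact Run7.h638.indep_of_ok hA
    (fun i x hx => (hB i).1.subset_ground ((hmemBf i x).1 hx)) hfA hπ hg hok

end Pool.Agent.Results.MP_b95b09_co.TransversalMatroid
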